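import Mathlib
import Pool.Agent.X189.SR.Core

set_option autoImplicit false

/-!
Stable rank one does not pass from the asymptotic sequence algebra of a sequence of Banach algebras
to its members, even when all members are renormings of one algebra.
-/

namespace Pool.Agent.Results.MP_c26838_an.SequenceFails

open scoped ENNReal
open Filter Topology Pool.Agent.X189.SR

noncomputable section

section Defs

variable (A : ℕ → Type) [∀ n, NormedRing (A n)] [∀ n, NormOneClass (A n)]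

/-- The Banach algebra `ℓ^∞(A n)` of all bounded sequences, with the supremum norm. -/
def LInf : Type := lp A ∞

instance instLInf : NormedRing (LInf A) := (lp.inftyNormedRing : NormedRing (lp A ∞))

variable {A}

/-- The `n`-th term of a bounded sequence. -/
def LInf.term (a : LInf A) (n : ℕ) : A n := (show lp A ∞ from a) n

variable (A)

/-- The sequences with `‖a n‖ → 0`. -/
def nullSeq : Set (LInf A) := {a | Tendsto (fun n => ‖a.term n‖) atTop (𝓝 0)}

variable {A}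

lemma term_le (a : LInf A) (n : ℕ) : ‖a.term n‖ ≤ ‖a‖ :=
  lp.norm_apply_le_norm (E := A) (p := ∞) (by simp) a n

lemma norm_le_of {a : LInf A} {C : ℝ} (hC : 0 ≤ C) (h : ∀ n, ‖a.term n‖ ≤ C) : ‖a‖ ≤ C :=
  lp.norm_le_of_forall_le (E := A) hC h

lemma null_zero : (0 : LInf A) ∈ nullSeq A := by
  show Tendsto (fun n => ‖(0 : lp A ∞) n‖) atTop (𝓝 0)
  simp

lemma null_add {x y : LInf A} (hx : x ∈ nullSeq A) (hy : y ∈ nullSeq A) : x + y ∈ nullSeq A := by
  have h := Tendsto.add hx hy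
  rw [add_zero] at h
  refine squeeze_zero (fun n => norm_nonneg _) (fun n => ?_) h
  exact norm_add_le _ _

lemma null_neg {x : LInf A} (hx : x ∈ nullSeq A) : -x ∈ nullSeq A := by
  refine Tendsto.congr (fun n => ?_) hx
  exact (norm_neg _).symm

lemma null_mul_left {x y : LInf A} (hy : y ∈ nullSeq A) : x * y ∈ nullSeq A := by
  have h := Tendsto.const_mul ‖x‖ hy
  rw [mul_zero] at h
  refine squeeze_zero (fun n => norm_nonneg _) (fun n => ?_) h
  refine (norm_mul_le (x.term n) (y.term n)).trans ?_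
  exact mul_le_mul_of_nonneg_right (term_le x n) (norm_nonneg _)

lemma null_mul_right {x y : LInf A} (hx : x ∈ nullSeq A) : x * y ∈ nullSeq A := by
  have h := Tendsto.mul_const ‖y‖ hx
  rw [zero_mul] at h
  refine squeeze_zero (fun n => norm_nonneg _) (fun n => ?_) h
  refine (norm_mul_le (x.term n) (y.term n)).trans ?_
  exact mul_le_mul_of_nonneg_left (term_le y n) (norm_nonneg _)

variable (A)

/-- The ideal `c₀(A n)` of the sequences with `‖a n‖ → 0` in the Banach algebra `ℓ^∞(A n)` of all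
bounded sequences. -/
def c0 : TwoSidedIdeal (LInf A) :=
  TwoSidedIdeal.mk' (nullSeq A) null_zero null_add null_neg null_mul_left null_mul_right

/-- The asymptotic sequence algebra `ℓ^∞(A n) / c₀(A n)`. -/
def Asy : Type := (c0 A).ringCon.Quotient

instance instAsy : Ring (Asy A) := (RingCon.instRingQuotient (c0 A).ringCon)

/-- The quotient map onto the asymptotic sequence algebra. -/
def proj : LInf A →+* Asy A := (c0 A).ringCon.mk'

/-- The quotient norm of the asymptotic sequence algebra. -/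
def asyNorm (x : Asy A) : ℝ := sInf {r : ℝ | ∃ a : LInf A, proj A a = x ∧ ‖a‖ = r}

/-- The asymptotic sequence algebra has stable rank one: its invertible elements are norm-dense. -/
def AsyStableRankOne : Prop :=
  ∀ x : Asy A, ∀ ε : ℝ, 0 < ε → ∃ u : Asy A, IsUnit u ∧ asyNorm A (x - u) < ε

end Defs

/-- A unital Banach algebra has stable rank one: its invertible elements are norm-dense. -/
def StableRankOne (R : Type) [NormedRing R] : Prop := Dense {u : R | IsUnit u}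

section Gen

variable {B : Type} [NormedRing B] [NormedAlgebra ℂ B] [NormOneClass B]

/-- a bounded sequence in the algebras `An B n` -/
def mkL (a : ∀ n, An B n) (C : ℝ) (h : ∀ n, ‖a n‖ ≤ C) : LInf (fun n => An B n) :=
  (⟨a, memℓp_infty ⟨C, by rintro _ ⟨n, rfl⟩; exact h n⟩⟩ : lp (fun n => An B n) ∞)

lemma asyNorm_le (a b : LInf (fun n => An B n)) :
    asyNorm (fun n => An B n) (proj _ a - proj _ b) ≤ ‖a - b‖ := by
  refine csInf_le ⟨0, ?_⟩ ⟨a - b, ?_, rfl⟩
  · rintro r ⟨c, -, rfl⟩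
    exact norm_nonneg c
  · exact map_sub (proj (fun n => An B n)) a b

lemma proj_mul_eq_one (a b : LInf (fun n => An B n))
    (h : Tendsto (fun n => ‖(a.term n) * (b.term n) - 1‖) atTop (𝓝 0)) :
    proj (fun n => An B n) a * proj (fun n => An B n) b = 1 := by
  rw [← map_mul, ← map_one (proj (fun n => An B n))]
  show ((a * b : LInf (fun n => An B n)) : (c0 (fun n => An B n)).ringCon.Quotient) =
    ((1 : LInf (fun n => An B n)) : (c0 (fun n => An B n)).ringCon.Quotient)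
  rw [RingCon.eq, TwoSidedIdeal.rel_iff, c0, TwoSidedIdeal.mem_mk']
  exact h

/-- the modified scalar -/
def lam (ε : ℝ) (z : ℂ) : ℂ := if ε ≤ ‖z‖ then z else ε

lemma le_norm_lam {ε : ℝ} (hε : 0 < ε) (z : ℂ) : ε ≤ ‖lam ε z‖ := by
  unfold lam
  split_ifs with h
  · exact h
  · rw [Complex.norm_real, Real.norm_of_nonneg hε.le]

lemma norm_sub_lam {ε : ℝ} (hε : 0 < ε) (z : ℂ) : ‖z - lam ε z‖ ≤ 2 * ε := by
  unfold lam
  split_ifs with h
  · simp [hε.le]
  · push Not at h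
    refine (norm_sub_le _ _).trans ?_
    rw [Complex.norm_real, Real.norm_of_nonneg hε.le]
    linarith

variable (B) in
lemma asy_sr1 : AsyStableRankOne (fun n => An B n) := by
  intro x ε hε
  obtain ⟨a, rfl⟩ : ∃ a, proj (fun n => An B n) a = x :=
    (c0 (fun n => An B n)).ringCon.mk'_surjective x
  set δ : ℝ := ε / 3 with hδ
  have hδ0 : 0 < δ := by positivity
  set C : ℝ := ‖a‖ with hC
  have hC0 : 0 ≤ C := norm_nonneg a
  have hCn : ∀ n, ‖a.term n‖ ≤ C := fun n => term_le a n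
  -- the radical part
  let r : ∀ n : ℕ, B := fun n => (a.term n).b - (a.term n).l • (1 : B)
  have hr : ∀ n : ℕ, ((n : ℝ) + 1) * ‖r n‖ ≤ C := by
    intro n
    have h1 := hCn n
    rw [norm_def] at h1
    have := norm_nonneg (a.term n).l
    show ((n : ℝ) + 1) * ‖(a.term n).b - (a.term n).l • (1 : B)‖ ≤ C
    linarith
  let m : ℕ → ℂ := fun n => lam δ (a.term n).l
  have hm : ∀ n, δ ≤ ‖m n‖ := fun n => le_norm_lam hδ0 _
  have hm0 : ∀ n, m n ≠ 0 := fun n => norm_pos_iff.1 (lt_of_lt_of_le hδ0 (hm n))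
  have hml : ∀ n, ‖m n‖ ≤ C + 2 * δ := by
    intro n
    have h1 : ‖(a.term n).l‖ ≤ C := by
      have h1 := hCn n
      rw [norm_def] at h1
      have : 0 ≤ ((n : ℝ) + 1) * ‖(a.term n).b - (a.term n).l • (1 : B)‖ := by positivity
      linarith
    have h2 := norm_sub_lam hδ0 (a.term n).l
    have h3 : ‖m n‖ ≤ ‖(a.term n).l‖ + ‖(a.term n).l - m n‖ := by
      have : m n = (a.term n).l - ((a.term n).l - m n) := by ring
      calc ‖m n‖ = ‖(a.term n).l - ((a.term n).l - m n)‖ := by rw [← this]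
        _ ≤ _ := norm_sub_le _ _
    have h4 : ‖(a.term n).l - m n‖ ≤ 2 * δ := h2
    linarith
  let a' : LInf (fun n => An B n) :=
    mkL (fun n => mkA n (m n) (m n • (1 : B) + r n)) (C + 2 * δ + C) fun n => by
      rw [norm_def, l_mkA, b_mkA, add_sub_cancel_left]
      exact add_le_add (hml n) (hr n)
  let c : LInf (fun n => An B n) :=
    mkL (fun n => mkA n (m n)⁻¹ ((m n)⁻¹ • (1 : B) - ((m n)⁻¹ * (m n)⁻¹) • r n))
      (δ⁻¹ + δ⁻¹ * δ⁻¹ * C) fun n => by
      rw [norm_def, l_mkA, b_mkA, sub_right_comm, sub_self, zero_sub, norm_neg, norm_smul,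
        norm_mul, norm_inv]
      have h1 : ‖m n‖⁻¹ ≤ δ⁻¹ := inv_anti₀ hδ0 (hm n)
      have h2 : ‖m n‖⁻¹ * ‖m n‖⁻¹ ≤ δ⁻¹ * δ⁻¹ := by gcongr
      have h3 : ((n : ℝ) + 1) * (‖m n‖⁻¹ * ‖m n‖⁻¹ * ‖r n‖) =
          (‖m n‖⁻¹ * ‖m n‖⁻¹) * (((n : ℝ) + 1) * ‖r n‖) := by ring
      rw [h3]
      refine add_le_add h1 (mul_le_mul h2 (hr n) (by positivity) (by positivity))
  have hprod : ∀ n : ℕ, (m n • (1 : B) + r n) *
      ((m n)⁻¹ • (1 : B) - ((m n)⁻¹ * (m n)⁻¹) • r n) - 1 =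
      -(((m n)⁻¹ * (m n)⁻¹) • (r n * r n)) := by
    intro n
    rw [mul_sub, add_mul, add_mul, smul_mul_smul_comm, mul_one, mul_inv_cancel₀ (hm0 n), one_smul,
      mul_smul_comm, mul_one, smul_mul_smul_comm, one_mul, mul_smul_comm, ← mul_assoc,
      mul_inv_cancel₀ (hm0 n), one_mul]
    abel
  have hprod' : ∀ n : ℕ, ((m n)⁻¹ • (1 : B) - ((m n)⁻¹ * (m n)⁻¹) • r n) *
      (m n • (1 : B) + r n) - 1 =
      -(((m n)⁻¹ * (m n)⁻¹) • (r n * r n)) := by
    intro n
    rw [← hprod n]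
    congr 1
    have h1 : Commute (m n • (1 : B) + r n) ((m n)⁻¹ • (1 : B) - ((m n)⁻¹ * (m n)⁻¹) • r n) := by
      have h2 : ∀ (z : ℂ) (t : B), Commute (z • (1 : B)) t := fun z t => by
        have := (Commute.one_left t).smul_left z
        exact this
      refine Commute.sub_right (Commute.add_left (h2 _ _) ?_) (Commute.add_left (h2 _ _) ?_)
      · exact (h2 _ _).symm
      · exact (Commute.refl (r n)).smul_right _
    exact h1.eq.symm
  have hlim : Tendsto (fun n : ℕ => (δ⁻¹ * δ⁻¹) * (C * C) * (1 / ((n : ℝ) + 1))) atTop (𝓝 0) := by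
    have h := (tendsto_one_div_add_atTop_nhds_zero_nat (𝕜 := ℝ)).const_mul
      ((δ⁻¹ * δ⁻¹) * (C * C))
    rwa [mul_zero] at h
  have hsmall : ∀ n : ℕ, ((n : ℝ) + 1) * ‖-(((m n)⁻¹ * (m n)⁻¹) • (r n * r n))‖ ≤
      (δ⁻¹ * δ⁻¹) * (C * C) * (1 / ((n : ℝ) + 1)) := by
    intro n
    rw [norm_neg, norm_smul, norm_mul, norm_inv]
    have hn : (0 : ℝ) < (n : ℝ) + 1 := by positivity
    have h1 : ‖m n‖⁻¹ ≤ δ⁻¹ := inv_anti₀ hδ0 (hm n)
    have h2 : ‖m n‖⁻¹ * ‖m n‖⁻¹ ≤ δ⁻¹ * δ⁻¹ := by gcongr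
    have h3 : ‖r n * r n‖ ≤ ‖r n‖ * ‖r n‖ := norm_mul_le _ _
    have h4 : ((n : ℝ) + 1) * (‖r n‖ * ‖r n‖) ≤ (C * C) * (1 / ((n : ℝ) + 1)) := by
      rw [mul_one_div, le_div_iff₀ hn]
      have := mul_le_mul (hr n) (hr n) (by positivity) hC0
      linarith
    calc ((n : ℝ) + 1) * (‖m n‖⁻¹ * ‖m n‖⁻¹ * ‖r n * r n‖)
        = (‖m n‖⁻¹ * ‖m n‖⁻¹) * (((n : ℝ) + 1) * ‖r n * r n‖) := by ring
      _ ≤ (δ⁻¹ * δ⁻¹) * (((n : ℝ) + 1) * (‖r n‖ * ‖r n‖)) := by gcongr
      _ ≤ (δ⁻¹ * δ⁻¹) * ((C * C) * (1 / ((n : ℝ) + 1))) := by gcongr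
      _ = _ := by ring
  have e1 : proj (fun n => An B n) a' * proj (fun n => An B n) c = 1 := by
    apply proj_mul_eq_one
    refine squeeze_zero (fun n => norm_nonneg _) (fun n => ?_) hlim
    rw [norm_def]
    show ‖m n * (m n)⁻¹ - 1‖ + ((n : ℝ) + 1) * ‖(m n • (1 : B) + r n) *
      ((m n)⁻¹ • (1 : B) - ((m n)⁻¹ * (m n)⁻¹) • r n) - 1 - (m n * (m n)⁻¹ - 1) • (1 : B)‖ ≤ _
    rw [mul_inv_cancel₀ (hm0 n), sub_self, zero_smul, sub_zero, norm_zero, zero_add, hprod n]
    exact hsmall n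
  have e2 : proj (fun n => An B n) c * proj (fun n => An B n) a' = 1 := by
    apply proj_mul_eq_one
    refine squeeze_zero (fun n => norm_nonneg _) (fun n => ?_) hlim
    rw [norm_def]
    show ‖(m n)⁻¹ * m n - 1‖ + ((n : ℝ) + 1) *
      ‖((m n)⁻¹ • (1 : B) - ((m n)⁻¹ * (m n)⁻¹) • r n) * (m n • (1 : B) + r n) - 1 -
        ((m n)⁻¹ * m n - 1) • (1 : B)‖ ≤ _
    rw [inv_mul_cancel₀ (hm0 n), sub_self, zero_smul, sub_zero, norm_zero, zero_add, hprod' n]
    exact hsmall n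
  refine ⟨proj _ a', ⟨⟨proj _ a', proj _ c, e1, e2⟩, rfl⟩, ?_⟩
  refine (asyNorm_le a a').trans_lt ?_
  refine lt_of_le_of_lt (norm_le_of (by positivity : 0 ≤ 2 * δ) fun n => ?_)
    (by rw [hδ]; linarith : 2 * δ < ε)
  rw [norm_def]
  show ‖(a.term n).l - m n‖ + ((n : ℝ) + 1) * ‖(a.term n).b - (m n • (1 : B) + r n) -
    ((a.term n).l - m n) • (1 : B)‖ ≤ 2 * δ
  have h0 : (a.term n).b - (m n • (1 : B) + r n) - ((a.term n).l - m n) • (1 : B) = 0 := by
    show (a.term n).b - (m n • (1 : B) + ((a.term n).b - (a.term n).l • (1 : B))) -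
      ((a.term n).l - m n) • (1 : B) = 0
    rw [sub_smul]
    abel
  rw [h0, norm_zero, mul_zero, add_zero]
  exact norm_sub_lam hδ0 _

lemma not_sr1 (f : B) (hf : ∀ g : B, IsUnit g → 1 ≤ ‖f - g‖) (n : ℕ) :
    ¬ StableRankOne (An B n) := by
  intro h
  obtain ⟨g, hg, hd⟩ := Metric.dense_iff.1 h (mkA n 0 f) 1 one_pos
  have h1 := far f hf n g hd
  rw [Metric.mem_ball, dist_comm, dist_eq_norm] at hg
  linarith

end Gen

instance : Nontrivial E :=
  ⟨⟨0, BoundedContinuousFunction.const ℕ 1, fun h => by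
    have := congrArg (fun f : E => f 0) h
    exact zero_ne_one this⟩⟩

instance : NormOneClass B0 := inferInstanceAs (NormOneClass (E →L[ℂ] E))

/-- **Stable rank one does not pass from `Asy(A n)` to the `A n`.**  There is a sequence of unital
Banach algebras `A n` (with `‖1‖ = 1`), any two of which are isomorphic through a homeomorphic
algebra isomorphism, such that the asymptotic sequence algebra `ℓ^∞(A n) / c₀(A n)` has stable rank
one but no `A n` has stable rank one. -/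
theorem result : ∃ (A : ℕ → Type) (_ : ∀ n, NormedRing (A n)) (_ : ∀ n, NormedAlgebra ℂ (A n))
    (_ : ∀ n, NormOneClass (A n)),
    (∀ n, CompleteSpace (A n)) ∧
    AsyStableRankOne A ∧
    (∀ n, ¬ StableRankOne (A n)) ∧
    ∀ m n, ∃ e : A m ≃ₐ[ℂ] A n, Continuous e ∧ Continuous e.symm := by
  refine ⟨fun n => An B0 n, fun n => instNR n, fun n => instNA n, fun n => instOne n,
    fun n => instCS n, asy_sr1 B0, fun n => not_sr1 fsh fsh_far n,
    fun m n => ⟨idE B0 m n, idE_cont m n, idE_cont n m⟩⟩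

end

end Pool.Agent.Results.MP_c26838_an.SequenceFails
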